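import Pool.Agent.MWGN.StmtsA

/-!
# Normalisation of the exponents (row NOB of squad MWGN)

Problem MP_23468a_al.
-/

set_option autoImplicit false

namespace Pool.Agent.MWGN.H76

open Pool.Agent.Helper14_MV Pool.Agent.Helper2_MV
open Pool.Agent.MWK (pre Gw)
open Pool.Agent.MWF (Ap gaml PowStmt)
open Pool.Agent.MWGN

variable {β : FIC}

/-- a letter which is not the first occurrence may be doubled -/
theorem gpow (h : Gw β) (c : ℕ) (k : ℕ) : ∀ (u q : List ℕ), c ∈ u →
    RR β (u ++ (List.replicate (k + 1) c ++ q)) (u ++ c :: q) := by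
  induction k with
  | zero =>
    intro u q _
    exact RR.refl _
  | succ k ih =>
    intro u q hc
    obtain ⟨u1, u2, rfl⟩ := List.append_of_mem hc
    have h1 := h.gm.sub (fun d => if d = 0 then [c] else u2)
    have h2 := ((RR.refl (β := β) u1).append h1).append
      (RR.refl (List.replicate k c ++ q))
    have e1 : u1 ++ ([0, 1, 0, 0] : List ℕ).flatMap (fun d => if d = 0 then [c] else u2) ++
        (List.replicate k c ++ q) =
        (u1 ++ c :: u2) ++ (List.replicate (k + 1 + 1) c ++ q) := by
      simp [List.replicate_succ]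
    have e2 : u1 ++ ([0, 1, 0] : List ℕ).flatMap (fun d => if d = 0 then [c] else u2) ++
        (List.replicate k c ++ q) =
        (u1 ++ c :: u2) ++ (List.replicate (k + 1) c ++ q) := by
      simp [List.replicate_succ]
    rw [e1, e2] at h2
    exact β.trans h2.symm (ih (u1 ++ c :: u2) q hc)

theorem gpow' (h : Gw β) (c k : ℕ) (hk : 1 ≤ k) (u q : List ℕ) (hc : c ∈ u) :
    RR β (u ++ (List.replicate k c ++ q)) (u ++ c :: q) := by
  obtain ⟨k, rfl⟩ : ∃ k', k = k' + 1 := ⟨k - 1, by omega⟩
  exact gpow h c k u q hc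

theorem fmc (g g' : ℕ → List ℕ) (l : List ℕ) (hl : ∀ r ∈ l, RR β (g r) (g' r)) :
    RR β (l.flatMap g) (l.flatMap g') := by
  induction l with
  | nil => exact RR.refl _
  | cons r l ih =>
    rw [List.flatMap_cons, List.flatMap_cons]
    exact (hl r (by simp)).append (ih (fun s hs => hl s (List.mem_cons_of_mem _ hs)))

theorem tl (h : Gw β) (S L f : ℕ → ℕ) (l : List ℕ) : ∀ u : List ℕ,
    (∀ r ∈ l, L r ∈ u ∧ 1 ≤ f r) →
    RR β (u ++ l.flatMap (fun r => S r :: List.replicate (f r) (L r)))
      (u ++ l.flatMap (fun r => [S r] ++ [L r])) := by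
  induction l with
  | nil => intro u _; exact RR.refl _
  | cons r l ih =>
    intro u hu
    obtain ⟨h1, h2⟩ := hu r (by simp)
    have h3 := gpow' h (L r) (f r) h2 (u ++ [S r])
      (l.flatMap (fun r => S r :: List.replicate (f r) (L r))) (List.mem_append_left _ h1)
    have h4 := ih (u ++ [S r, L r]) (fun s hs =>
      ⟨List.mem_append_left _ (hu s (List.mem_cons_of_mem _ hs)).1,
        (hu s (List.mem_cons_of_mem _ hs)).2⟩)
    have e1 : u ++ (r :: l).flatMap (fun r => S r :: List.replicate (f r) (L r)) =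
        (u ++ [S r]) ++ (List.replicate (f r) (L r) ++
          l.flatMap (fun r => S r :: List.replicate (f r) (L r))) := by
      simp
    have e2 : (u ++ [S r]) ++ L r :: l.flatMap (fun r => S r :: List.replicate (f r) (L r)) =
        (u ++ [S r, L r]) ++ l.flatMap (fun r => S r :: List.replicate (f r) (L r)) := by
      simp
    have e3 : (u ++ [S r, L r]) ++ l.flatMap (fun r => [S r] ++ [L r]) =
        u ++ (r :: l).flatMap (fun r => [S r] ++ [L r]) := by
      simp
    rw [e1, ← e3]
    rw [e2] at h3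
    exact β.trans h3 h4

theorem nob (hP : PowStmt) : NobStmt := by
  intro β h ν τ m hτ i j e f hi hj he hf P hx hy
  have s1 := gpow' h ν.x i hi (P ++ [ν.a])
    ((List.range m).flatMap (fun r => ν.L r :: List.replicate (e r) (ν.C r)) ++
      ν.L m :: (List.replicate j ν.y ++ ν.b ::
        τ.flatMap (fun r => ν.S r :: List.replicate (f r) (ν.L r))))
    (List.mem_append_left _ hx)
  have s2 : RR β ((List.range m).flatMap (fun r => ν.L r :: List.replicate (e r) (ν.C r)))
      (bd (sg ν.L) (sg ν.C) m) := by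
    apply fmc
    intro r hr
    have h1 := hP β h.ap.sq (ν.C r) (e r) 2 (he r (List.mem_range.1 hr)) le_rfl
    exact (RR.refl (β := β) [ν.L r]).append h1
  have s3 := gpow' h ν.y j hj (P ++ ν.a :: ν.x :: (bd (sg ν.L) (sg ν.C) m ++ [ν.L m]))
    (ν.b :: τ.flatMap (fun r => ν.S r :: List.replicate (f r) (ν.L r)))
    (List.mem_append_left _ hy)
  have s4 := tl h ν.S ν.L f τ
    (P ++ ν.a :: ν.x :: (bd (sg ν.L) (sg ν.C) m ++ [ν.L m, ν.y, ν.b])) (by
      intro r hr
      have hrm := (hτ.2 r).1 hr
      refine ⟨?_, hf r hrm⟩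
      rcases Nat.lt_or_ge r m with h1 | h1
      · apply List.mem_append_right
        apply List.mem_cons_of_mem
        apply List.mem_cons_of_mem
        apply List.mem_append_left
        rw [bd, List.mem_flatMap]
        exact ⟨r, List.mem_range.2 h1, by simp [sg]⟩
      · have h2 : r = m := le_antisymm hrm h1
        subst h2
        simp)
  have s2' := ((RR.refl (β := β) (P ++ [ν.a, ν.x])).append s2).append
    (RR.refl (ν.L m :: (List.replicate j ν.y ++ ν.b ::
        τ.flatMap (fun r => ν.S r :: List.replicate (f r) (ν.L r)))))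
  have t1 : RR β (P ++ ν.a :: (List.replicate i ν.x ++
      ((List.range m).flatMap (fun r => ν.L r :: List.replicate (e r) (ν.C r)) ++
        ν.L m :: (List.replicate j ν.y ++ ν.b ::
          τ.flatMap (fun r => ν.S r :: List.replicate (f r) (ν.L r))))))
      (P ++ [ν.a, ν.x] ++
        (List.range m).flatMap (fun r => ν.L r :: List.replicate (e r) (ν.C r)) ++
        (ν.L m :: (List.replicate j ν.y ++ ν.b ::
          τ.flatMap (fun r => ν.S r :: List.replicate (f r) (ν.L r))))) := by
    simpa using s1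
  have t2 : RR β (P ++ [ν.a, ν.x] ++ bd (sg ν.L) (sg ν.C) m ++
        (ν.L m :: (List.replicate j ν.y ++ ν.b ::
          τ.flatMap (fun r => ν.S r :: List.replicate (f r) (ν.L r)))))
      ((P ++ ν.a :: ν.x :: (bd (sg ν.L) (sg ν.C) m ++ [ν.L m, ν.y, ν.b])) ++
        τ.flatMap (fun r => ν.S r :: List.replicate (f r) (ν.L r))) := by
    simpa using s3
  have t3 : (P ++ ν.a :: ν.x :: (bd (sg ν.L) (sg ν.C) m ++ [ν.L m, ν.y, ν.b])) ++
        τ.flatMap (fun r => [ν.S r] ++ [ν.L r]) = P ++ krl ν τ m := by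
    simp [krl, kr, sg]
  rw [t3] at s4
  exact β.trans t1 (β.trans s2' (β.trans t2 s4))

end Pool.Agent.MWGN.H76
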